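import Pool.Agent.helper61.Y2.Spec

set_option autoImplicit false

namespace H61.Y2

open H61.Yorioka Cardinal

open Classical in
/-- the response -/
noncomputable def XP2_S (f e : ℕ → ℕ) (C : ℕ → Finset (Finset (List Bool))) (j : ℕ) : Finset (List Bool) :=
  ((C j).filter (fun c => c.card ≤ 2 ^ e j ∧ ∀ s ∈ c, s.length = 2 ^ f (KK j))).biUnion id

lemma XP2_card (f e : ℕ → ℕ) (C : ℕ → Finset (Finset (List Bool))) (j : ℕ) :
    (XP2_S f e C j).card ≤ (C j).card * 2 ^ e j := by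
  classical
  unfold XP2_S
  refine le_trans (Finset.card_biUnion_le_card_mul _ _ (2 ^ e j) ?_) ?_
  · intro c hc
    rw [Finset.mem_filter] at hc
    exact hc.2.1
  · exact Nat.mul_le_mul_right _ (Finset.card_le_card (Finset.filter_subset _ _))

lemma XP2_wid (f e : ℕ → ℕ) (C : ℕ → Finset (Finset (List Bool))) (he : EE e)
    (hC : ∀ k : ℕ, ∃ m : ℕ, ∀ i ≥ m, (C i).card ^ k ≤ KK i) (k : ℕ) :
    ∃ m : ℕ, ∀ j ≥ m, (XP2_S f e C j).card ^ k ≤ KK j := by
  obtain ⟨m1, h1⟩ := he (2 * k)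
  obtain ⟨m2, h2⟩ := hC (2 * k)
  refine ⟨max m1 m2, ?_⟩
  intro j hj
  have h3 := h1 j (le_trans (le_max_left _ _) hj)
  have h4 := h2 j (le_trans (le_max_right _ _) hj)
  have h5 : (2 ^ e j) ^ (2 * k) ≤ KK j := by
    unfold KK
    rw [← pow_mul]
    apply Nat.pow_le_pow_right (by norm_num)
    rw [mul_comm]
    exact h3
  have h6 : ((C j).card * 2 ^ e j) ^ k ≤ KK j := by
    by_contra hcon
    have h7 : KK j * KK j < ((C j).card * 2 ^ e j) ^ k * ((C j).card * 2 ^ e j) ^ k :=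
      Nat.mul_lt_mul'' (not_le.mp hcon) (not_le.mp hcon)
    have h8 : ((C j).card * 2 ^ e j) ^ k * ((C j).card * 2 ^ e j) ^ k = (C j).card ^ (2 * k) * (2 ^ e j) ^ (2 * k) := by
      rw [two_mul, pow_add, pow_add]
      ring
    rw [h8] at h7
    have h9 := Nat.mul_le_mul h4 h5
    omega
  exact le_trans (Nat.pow_le_pow_left (XP2_card f e C j) k) h6

theorem XP2 (hOB : OB_stmt) (hSQT : SQT_stmt) : XP2_stmt := by
  classical
  intro f e W hf he hW
  have h1 := hOB f (Finset (List Bool)) W hf hW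
  refine hSQT (ℕ → Finset (List Bool)) (ℕ → Finset (List Bool)) (ℕ → Finset (List Bool)) (ℕ → Finset (Finset (List Bool)))
    (yoriokaIdeal f) (rS (fun n => 2 ^ f n)) rV 3 0 id _ _ h1 ?_ ?_
  · intro A hA
    exact hA.2.2
  · intro C
    by_cases hne : ∃ A : ℕ → Finset (List Bool), A ∈ {A | Sl (fun n => 2 ^ f n) A ∧
        (∃ m, ∀ j ≥ m, (A j).card ≤ 2 ^ e j) ∧ ∃ m, ∀ j ≥ m, A j ∈ W j} ∧ rV (id A) C
    · obtain ⟨A0, -, hA0⟩ := hne
      refine ⟨XP2_S f e C, ?_⟩
      rintro A ⟨⟨hA1, hA2, hA3⟩, hA4⟩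
      obtain ⟨m1, hm1⟩ := hA2
      obtain ⟨m2, hm2⟩ := hA4.2
      constructor
      · constructor
        · intro j s hs
          unfold XP2_S at hs
          rw [Finset.mem_biUnion] at hs
          obtain ⟨c, hc, hsc⟩ := hs
          rw [Finset.mem_filter] at hc
          exact hc.2.2 s hsc
        · exact XP2_wid f e C he hA0.1
      · refine ⟨max m1 m2, ?_⟩
        intro j hj
        have h3 := hm1 j (le_trans (le_max_left _ _) hj)
        have h4 := hm2 j (le_trans (le_max_right _ _) hj)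
        intro s hs
        unfold XP2_S
        rw [Finset.mem_biUnion]
        refine ⟨A j, ?_, hs⟩
        rw [Finset.mem_filter]
        exact ⟨h4, h3, fun t ht => hA1.len j t ht⟩
    · refine ⟨fun _ => ∅, ?_⟩
      intro A hA
      exact absurd ⟨A, hA.1, hA.2⟩ hne

end H61.Y2
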